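import Mathlib

set_option autoImplicit false

namespace Pool.Agent.TH926.CR

open Set MeasureTheory

/-- equality sets of measurable maps into a standard Borel space are measurable -/
theorem meas_eq {X Y : Type} [MeasurableSpace X] [MeasurableSpace Y] [StandardBorelSpace Y]
    {f g : X → Y} (hf : Measurable f) (hg : Measurable g) : MeasurableSet {x | f x = g x} := by
  have h : {x | f x = g x} = {x | embeddingReal Y (f x) = embeddingReal Y (g x)} := by
    ext x
    simp only [mem_setOf_eq]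
    exact ((measurableEmbedding_embeddingReal Y).injective.eq_iff).symm
  rw [h]
  exact measurableSet_eq_fun ((measurable_embeddingReal Y).comp hf)
    ((measurable_embeddingReal Y).comp hg)

section

variable {X : Type} [MeasurableSpace X] [StandardBorelSpace X] (s : ℕ → X → X)
    (hs : ∀ n, Measurable (s n)) (hinv : ∀ n x, s n (s n x) = x) (E : X → X → Prop)
    (hE : Equivalence E) (hsE : ∀ x y, E x y ↔ ∃ n, s n x = y)
    (ν : Measure X) [IsProbabilityMeasure ν] (hν : ∀ n, ν.map (s n) = ν)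

include hs hinv hsE hν

/-- invariance of the measure under partial Borel isomorphisms inside `E` -/
theorem inv_image {A : Set X} (hA : MeasurableSet A) {f : X → X} (hf : Measurable f)
    (hfE : ∀ x, E x (f x)) (hfi : InjOn f A) : ν (f '' A) = ν A := by
  classical
  set B : ℕ → Set X := fun n => {x | x ∈ A ∧ s n x = f x ∧ ∀ k < n, s k x ≠ f x} with hB
  have hBm : ∀ n, MeasurableSet (B n) := by
    intro n
    have h1 : B n = A ∩ ({x | s n x = f x} ∩ ⋂ k ∈ Finset.range n, {x | s k x = f x}ᶜ) := by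
      ext x
      simp only [hB, mem_setOf_eq, mem_inter_iff, mem_iInter, Finset.mem_range, mem_compl_iff]
    rw [h1]
    refine hA.inter ((meas_eq (hs n) hf).inter ?_)
    exact Finset.measurableSet_biInter _ fun k _ => (meas_eq (hs k) hf).compl
  have hcov : A = ⋃ n, B n := by
    ext x
    simp only [mem_iUnion]
    constructor
    · intro hx
      have hex : ∃ n, s n x = f x := (hsE _ _).1 (hfE x)
      refine ⟨Nat.find hex, hx, Nat.find_spec hex, fun k hk => Nat.find_min hex hk⟩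
    · rintro ⟨n, hn⟩; exact hn.1
  have hdis : Pairwise (Function.onFun Disjoint B) := by
    intro i j hij
    rw [Function.onFun, Set.disjoint_left]
    rintro x hi hj
    rcases lt_or_gt_of_ne hij with h | h
    · exact hj.2.2 i h hi.2.1
    · exact hi.2.2 j h hj.2.1
  have hBA : ∀ n, B n ⊆ A := fun n x hx => hx.1
  have himg : ∀ n, f '' B n = s n ⁻¹' B n := by
    intro n
    ext y
    simp only [mem_image, mem_preimage]
    constructor
    · rintro ⟨x, hx, rfl⟩
      rw [← hx.2.1, hinv]; exact hx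
    · intro hy
      refine ⟨s n y, hy, ?_⟩
      rw [← hy.2.1, hinv]
  have hfu : f '' A = ⋃ n, f '' B n := by
    conv_lhs => rw [hcov]
    rw [image_iUnion]
  have hdis2 : Pairwise (Function.onFun Disjoint fun n => f '' B n) := by
    intro i j hij
    rw [Function.onFun, Set.disjoint_left]
    rintro _ ⟨x, hx, rfl⟩ ⟨x', hx', he⟩
    have : x' = x := hfi (hBA j hx') (hBA i hx) he
    subst this
    exact (Set.disjoint_left.1 (hdis hij)) hx hx'
  have hm2 : ∀ n, MeasurableSet (f '' B n) := by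
    intro n; rw [himg]; exact hs n (hBm n)
  rw [hfu, measure_iUnion hdis2 hm2]
  conv_rhs => rw [hcov, measure_iUnion hdis hBm]
  congr 1
  ext n
  rw [himg]
  conv_rhs => rw [← hν n]
  rw [Measure.map_apply (hs n) (hBm n)]

omit hs hν [IsProbabilityMeasure ν] in
/-- saturations are invariant -/
theorem sat_inv (hE : Equivalence E) (L : Set X) : ∀ x y, E x y → x ∈ (⋃ n, s n ⁻¹' L) →
    y ∈ (⋃ n, s n ⁻¹' L) := by
  intro x y hxy hx
  simp only [mem_iUnion, mem_preimage] at hx ⊢
  obtain ⟨n, hn⟩ := hx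
  have h1 : E x (s n x) := (hsE _ _).2 ⟨n, rfl⟩
  obtain ⟨k, hk⟩ := (hsE y (s n x)).1 (hE.trans (hE.symm hxy) h1)
  exact ⟨k, by rw [hk]; exact hn⟩

omit hinv hsE in
theorem sat_null {L : Set X} (hL : MeasurableSet L) (h0 : ν L = 0) :
    ν (⋃ n, s n ⁻¹' L) = 0 := by
  rw [measure_iUnion_null_iff]
  intro n
  rw [← Measure.map_apply (hs n) hL, hν n, h0]

/-- the part inside an invariant set -/
theorem inv_image_inter (hE : Equivalence E) {A S : Set X} (hA : MeasurableSet A)
    (hS : MeasurableSet S)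
    (hSi : ∀ x y, E x y → x ∈ S → y ∈ S) {f : X → X} (hf : Measurable f)
    (hfE : ∀ x, E x (f x)) (hfi : InjOn f A) : ν (f '' A ∩ S) = ν (A ∩ S) := by
  have h1 : f '' A ∩ S = f '' (A ∩ S) := by
    ext y
    constructor
    · rintro ⟨⟨x, hx, rfl⟩, hy⟩
      exact ⟨x, ⟨hx, hSi _ _ (hE.symm (hfE x)) hy⟩, rfl⟩
    · rintro ⟨x, ⟨hx, hxS⟩, rfl⟩
      exact ⟨⟨x, hx, rfl⟩, hSi _ _ (hfE x) hxS⟩
  rw [h1]
  exact inv_image s hs hinv E hsE ν hν (hA.inter hS) hf hfE (hfi.mono inter_subset_left)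

/-- iterated halving -/
theorem ref_set (hE : Equivalence E)
    (hhalve : ∀ C : Set X, MeasurableSet C →
      ∃ (D : Set X) (f : X → X), MeasurableSet D ∧ D ⊆ C ∧ Measurable f ∧ (∀ x, E x (f x)) ∧
      InjOn f D ∧ MapsTo f D C ∧ Disjoint D (f '' D) ∧ ν (C \ (D ∪ f '' D)) = 0)
    (C : Set X) (hC : MeasurableSet C) (m : ℕ) :
    ∃ R : Set X, MeasurableSet R ∧ R ⊆ C ∧ ∀ S : Set X, MeasurableSet S →
      (∀ x y, E x y → x ∈ S → y ∈ S) → ν (C ∩ S) = 2 ^ m * ν (R ∩ S) := by
  induction m with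
  | zero => exact ⟨C, hC, Subset.rfl, fun S _ _ => by simp⟩
  | succ m ih =>
    obtain ⟨R, hR, hRC, hRS⟩ := ih
    obtain ⟨D, f, hD, hDR, hf, hfE, hfi, hfm, hdis, h0⟩ := hhalve R hR
    refine ⟨D, hD, hDR.trans hRC, fun S hS hSi => ?_⟩
    rw [hRS S hS hSi]
    have himg : MeasurableSet (f '' D) := by
      exact hD.image_of_measurable_injOn hf hfi
    have h1 : ν (R ∩ S) = ν (D ∩ S) + ν (f '' D ∩ S) := by
      rw [← measure_union (hdis.mono inter_subset_left inter_subset_left) (himg.inter hS)]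
      apply le_antisymm
      · have hsub : R ∩ S ⊆ (D ∩ S ∪ f '' D ∩ S) ∪ (R \ (D ∪ f '' D)) := by
          rintro x ⟨hx, hxS⟩
          by_cases hxD : x ∈ D ∪ f '' D
          · left
            rcases hxD with h | h
            · left; exact ⟨h, hxS⟩
            · right; exact ⟨h, hxS⟩
          · right; exact ⟨hx, hxD⟩
        calc ν (R ∩ S) ≤ ν ((D ∩ S ∪ f '' D ∩ S) ∪ (R \ (D ∪ f '' D))) := measure_mono hsub
          _ ≤ ν (D ∩ S ∪ f '' D ∩ S) + ν (R \ (D ∪ f '' D)) := measure_union_le _ _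
          _ = ν (D ∩ S ∪ f '' D ∩ S) := by rw [h0, add_zero]
      · apply measure_mono
        apply union_subset
        · exact inter_subset_inter_left _ hDR
        · apply inter_subset_inter_left
          rintro _ ⟨x, hx, rfl⟩
          exact hfm hx
    rw [h1, inv_image_inter s hs hinv E hsE ν hν hE hD hS hSi hf hfE hfi, pow_succ]
    ring

omit hs hinv hsE hν [IsProbabilityMeasure ν] in
/-- matching with priorities -/
theorem prio (hE : Equivalence E)
    (hgreedy : ∀ U V : Set X, MeasurableSet U → MeasurableSet V →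
      ∃ (M : Set X) (f : X → X), MeasurableSet M ∧ M ⊆ U ∧ Measurable f ∧ (∀ x, E x (f x)) ∧
      InjOn f M ∧ MapsTo f M V ∧ MeasurableSet (f '' M) ∧
      ∀ x ∈ U, ∀ y ∈ V, E x y → x ∈ M ∨ y ∈ f '' M)
    (R W : Set X) (hR : MeasurableSet R) (hW : MeasurableSet W) (r : ℕ) (v : X → Fin r)
    (hv : Measurable v) (t : ℕ) :
    ∃ (L : Set X) (ψ : X → X), MeasurableSet L ∧ L ⊆ R ∧ Measurable ψ ∧ (∀ x, E x (ψ x)) ∧
      InjOn ψ (R \ L) ∧ MeasurableSet (ψ '' (R \ L)) ∧
      (∀ y ∈ ψ '' (R \ L), y ∈ W ∧ (v y).val < t) ∧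
      (∀ x ∈ L, ∀ y ∈ W, (v y).val < t → E x y → y ∈ ψ '' (R \ L)) ∧
      (∀ y ∈ ψ '' (R \ L), ∀ y' ∈ W, E y y' → v y' < v y → y' ∈ ψ '' (R \ L)) := by
  classical
  induction t with
  | zero =>
    refine ⟨R, id, hR, Subset.rfl, measurable_id, fun x => hE.refl x, ?_, ?_, ?_, ?_, ?_⟩
    · simp
    · simp
    · simp
    · intro x _ y _ h; omega
    · simp
  | succ t ih =>
    obtain ⟨L, ψ, hL, hLR, hψ, hψE, hψi, hKm, hKW, ha, hb⟩ := ih
    have hWt : MeasurableSet (W ∩ {y | (v y).val = t}) := by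
      apply hW.inter
      exact hv (MeasurableSet.of_discrete (s := {l : Fin r | l.val = t}))
    obtain ⟨M, f, hM, hML, hf, hfE, hfi, hfm, hfM, hg⟩ := hgreedy L _ hL hWt
    have hset : R \ (L \ M) = (R \ L) ∪ M := by
      ext x
      constructor
      · rintro ⟨hx, hx2⟩
        by_cases hxM : x ∈ M
        · right; exact hxM
        · left; exact ⟨hx, fun h => hx2 ⟨h, hxM⟩⟩
      · rintro (⟨hx, hx2⟩ | hx)
        · exact ⟨hx, fun h => hx2 h.1⟩
        · exact ⟨hLR (hML hx), fun h => h.2 hx⟩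
    set ψ' : X → X := M.piecewise f ψ with hψ'
    have hψ'M : ∀ x ∈ M, ψ' x = f x := fun x hx => by rw [hψ']; exact piecewise_eq_of_mem _ _ _ hx
    have hψ'R : ∀ x ∉ M, ψ' x = ψ x := fun x hx => by
      rw [hψ']; exact piecewise_eq_of_notMem _ _ _ hx
    have himg : ψ' '' (R \ (L \ M)) = ψ '' (R \ L) ∪ f '' M := by
      rw [hset, image_union]
      congr 1
      · apply image_congr
        intro x hx
        exact hψ'R x fun h => hx.2 (hML h)
      · apply image_congr
        intro x hx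
        exact hψ'M x hx
    refine ⟨L \ M, ψ', hL.diff hM, diff_subset.trans hLR, ?_, ?_, ?_, ?_, ?_, ?_, ?_⟩
    · exact Measurable.piecewise hM hf hψ
    · intro x
      by_cases hx : x ∈ M
      · rw [hψ'M x hx]; exact hfE x
      · rw [hψ'R x hx]; exact hψE x
    · rw [hset]
      have hne : ∀ x ∈ R \ L, ∀ y ∈ M, ψ' x ≠ ψ' y := by
        intro x hx y hy he
        rw [hψ'R x (fun h => hx.2 (hML h)), hψ'M y hy] at he
        have h1 := (hKW (ψ x) ⟨x, hx, rfl⟩).2
        have h2 := (hfm hy).2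
        simp only [mem_setOf_eq] at h2
        rw [he] at h1
        omega
      rintro x (hx | hx) y (hy | hy) he
      · rw [hψ'R x (fun h => hx.2 (hML h)), hψ'R y (fun h => hy.2 (hML h))] at he
        exact hψi hx hy he
      · exact absurd he (hne x hx y hy)
      · exact absurd he.symm (hne y hy x hx)
      · rw [hψ'M x hx, hψ'M y hy] at he
        exact hfi hx hy he
    · rw [himg]; exact hKm.union hfM
    · rw [himg]
      rintro y (hy | ⟨x, hx, rfl⟩)
      · exact ⟨(hKW y hy).1, Nat.lt_succ_of_lt (hKW y hy).2⟩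
      · have := hfm hx
        refine ⟨this.1, ?_⟩
        have h2 := this.2
        simp only [mem_setOf_eq] at h2
        omega
    · rw [himg]
      rintro x ⟨hxL, hxM⟩ y hy hvy hxy
      by_cases h : (v y).val < t
      · left; exact ha x hxL y hy h hxy
      · right
        have hvt : (v y).val = t := by omega
        rcases hg x hxL y ⟨hy, hvt⟩ hxy with h1 | h1
        · exact absurd h1 hxM
        · exact h1
    · rw [himg]
      rintro y (hy | ⟨x, hx, rfl⟩) y' hy' hyy' hlt
      · left; exact hb y hy y' hy' hyy' hlt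
      · left
        have h2 := (hfm hx).2
        simp only [mem_setOf_eq] at h2
        have h3 : (v y').val < t := by
          have : (v y').val < (v (f x)).val := hlt
          omega
        exact ha x (hML hx) y' hy' h3 (hE.trans (hfE x) hyy')

end

/-- JOB CELLS (division of a set into `2 ^ m` equidecomposable cells, all but at most `r` of which
are, on each class, contained in one piece of a given partition) -/
theorem cells {X : Type} [MeasurableSpace X] [StandardBorelSpace X] (s : ℕ → X → X)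
    (hs : ∀ n, Measurable (s n)) (hinv : ∀ n x, s n (s n x) = x) (E : X → X → Prop)
    (hE : Equivalence E) (hsE : ∀ x y, E x y ↔ ∃ n, s n x = y)
    (ν : Measure X) [IsProbabilityMeasure ν] (hν : ∀ n, ν.map (s n) = ν)
    -- the conclusion of job GREEDY:
    (hgreedy : ∀ U V : Set X, MeasurableSet U → MeasurableSet V →
      ∃ (M : Set X) (f : X → X), MeasurableSet M ∧ M ⊆ U ∧ Measurable f ∧ (∀ x, E x (f x)) ∧
      InjOn f M ∧ MapsTo f M V ∧ MeasurableSet (f '' M) ∧
      ∀ x ∈ U, ∀ y ∈ V, E x y → x ∈ M ∨ y ∈ f '' M)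
    -- the conclusion of job HALVE:
    (hhalve : ∀ C : Set X, MeasurableSet C →
      ∃ (D : Set X) (f : X → X), MeasurableSet D ∧ D ⊆ C ∧ Measurable f ∧ (∀ x, E x (f x)) ∧
      InjOn f D ∧ MapsTo f D C ∧ Disjoint D (f '' D) ∧ ν (C \ (D ∪ f '' D)) = 0)
    (C : Set X) (hC : MeasurableSet C) (r : ℕ) (v : X → Fin r)
    (hv : Measurable v) (m : ℕ) :
    ∃ (D : Set X) (φ : Fin (2 ^ m) → X → X) (w : Fin (2 ^ m) → X → Fin r),
      MeasurableSet D ∧ D ⊆ C ∧ (∀ i, Measurable (φ i)) ∧ (∀ i x, E x (φ i x)) ∧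
      (∀ i, InjOn (φ i) D) ∧ (∀ i, MapsTo (φ i) D C) ∧
      (∀ i j, i ≠ j → Disjoint (φ i '' D) (φ j '' D)) ∧ ν (C \ ⋃ i, φ i '' D) = 0 ∧
      (∀ i, Measurable (w i)) ∧ (∀ i x y, E x y → w i x = w i y) ∧
      ν {x | x ∈ C ∧ ∃ i, x ∈ φ i '' D ∧ v x ≠ w i x} ≤ (r : ENNReal) / 2 ^ m * ν C := by
  classical
  obtain ⟨R, hR, hRC, hRS⟩ := ref_set s hs hinv E hsE ν hν hE hhalve C hC m
  -- the matching step
  have hstep : ∀ W : {W : Set X // MeasurableSet W},
      ∃ (L : Set X) (ψ : X → X), MeasurableSet L ∧ L ⊆ R ∧ Measurable ψ ∧ (∀ x, E x (ψ x)) ∧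
      InjOn ψ (R \ L) ∧ MeasurableSet (ψ '' (R \ L)) ∧
      (∀ y ∈ ψ '' (R \ L), y ∈ W.1 ∧ (v y).val < r) ∧
      (∀ x ∈ L, ∀ y ∈ W.1, (v y).val < r → E x y → y ∈ ψ '' (R \ L)) ∧
      (∀ y ∈ ψ '' (R \ L), ∀ y' ∈ W.1, E y y' → v y' < v y → y' ∈ ψ '' (R \ L)) :=
    fun W => prio E hE hgreedy R W.1 hR W.2 r v hv r
  choose L ψ hL hLR hψ hψE hψi hKm hKW ha hb using hstep
  let Ws : ℕ → {W : Set X // MeasurableSet W} := fun n =>
    Nat.rec ⟨C, hC⟩ (fun _ W => ⟨W.1 \ ψ W '' (R \ L W), W.2.diff (hKm W)⟩) n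
  have hWs0 : (Ws 0).1 = C := rfl
  have hWs1 : ∀ n, (Ws (n + 1)).1 = (Ws n).1 \ ψ (Ws n) '' (R \ L (Ws n)) := fun n => rfl
  set K : ℕ → Set X := fun n => ψ (Ws n) '' (R \ L (Ws n)) with hK
  have hKsub : ∀ n, K n ⊆ (Ws n).1 := fun n y hy => (hKW (Ws n) y hy).1
  have hanti : ∀ i j, i ≤ j → (Ws j).1 ⊆ (Ws i).1 := by
    intro i j hij
    induction j, hij using Nat.le_induction with
    | base => exact Subset.rfl
    | succ j _ ih => rw [hWs1]; exact diff_subset.trans ih
  have hWC : ∀ n, (Ws n).1 ⊆ C := fun n => by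
    have := hanti 0 n (Nat.zero_le _); rwa [hWs0] at this
  have hKdis : ∀ i j, i < j → ∀ y, y ∈ K i → y ∈ (Ws j).1 → False := by
    intro i j hij y hyi hyj
    have := hanti (i + 1) j hij hyj
    rw [hWs1] at this
    exact this.2 hyi
  -- measure of `W i` on invariant sets
  have hcount : ∀ (S : Set X), MeasurableSet S → (∀ x y, E x y → x ∈ S → y ∈ S) → ∀ n : ℕ,
      ν (C ∩ S) ≤ ν ((Ws n).1 ∩ S) + n * ν (R ∩ S) := by
    intro S hS hSi n
    induction n with
    | zero => simp [hWs0]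
    | succ n ih =>
      have h1 : (Ws n).1 ∩ S ⊆ ((Ws (n + 1)).1 ∩ S) ∪ (K n ∩ S) := by
        rintro x ⟨hx, hxS⟩
        by_cases hxK : x ∈ K n
        · right; exact ⟨hxK, hxS⟩
        · left; rw [hWs1]; exact ⟨⟨hx, hxK⟩, hxS⟩
      have h2 : ν (K n ∩ S) ≤ ν (R ∩ S) := by
        rw [hK]
        simp only
        rw [inv_image_inter s hs hinv E hsE ν hν hE (hR.diff (hL _)) hS hSi (hψ _) (hψE _) (hψi _)]
        exact measure_mono (inter_subset_inter_left _ diff_subset)
      calc ν (C ∩ S) ≤ ν ((Ws n).1 ∩ S) + n * ν (R ∩ S) := ih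
        _ ≤ (ν ((Ws (n + 1)).1 ∩ S) + ν (K n ∩ S)) + n * ν (R ∩ S) := by
            gcongr
            exact (measure_mono h1).trans (measure_union_le _ _)
        _ ≤ (ν ((Ws (n + 1)).1 ∩ S) + ν (R ∩ S)) + n * ν (R ∩ S) := by gcongr
        _ = ν ((Ws (n + 1)).1 ∩ S) + ((n + 1 : ℕ) : ENNReal) * ν (R ∩ S) := by
            push_cast; ring
  -- the leftovers are null
  have hLnull : ∀ n, n < 2 ^ m → ν (L (Ws n)) = 0 := by
    intro n hn
    set S : Set X := ⋃ k, s k ⁻¹' (L (Ws n)) with hSdef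
    have hS : MeasurableSet S := MeasurableSet.iUnion fun k => hs k (hL _)
    have hSi : ∀ x y, E x y → x ∈ S → y ∈ S := sat_inv s hinv E hsE hE _
    have hLS : L (Ws n) ⊆ S := by
      intro x hx
      obtain ⟨k, hk⟩ := (hsE x x).1 (hE.refl x)
      rw [hSdef]
      simp only [mem_iUnion, mem_preimage]
      exact ⟨k, by rw [hk]; exact hx⟩
    have h1 : (Ws n).1 ∩ S ⊆ K n ∩ S := by
      rintro y ⟨hy, hyS⟩
      refine ⟨?_, hyS⟩
      rw [hSdef] at hyS
      simp only [mem_iUnion, mem_preimage] at hyS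
      obtain ⟨k, hk⟩ := hyS
      have : E (s k y) y := hE.symm ((hsE _ _).2 ⟨k, rfl⟩)
      exact ha (Ws n) _ hk y hy (v y).isLt this
    have h2 : ν (K n ∩ S) = ν ((R \ L (Ws n)) ∩ S) :=
      inv_image_inter s hs hinv E hsE ν hν hE (hR.diff (hL _)) hS hSi (hψ _) (hψE _) (hψi _)
    have h3 : ν (R ∩ S) ≤ ν ((Ws n).1 ∩ S) := by
      have h4 := hcount S hS hSi n
      rw [hRS S hS hSi] at h4
      have h5 : ((n + 1 : ℕ) : ENNReal) * ν (R ∩ S) ≤ 2 ^ m * ν (R ∩ S) := by
        gcongr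
        have : ((n + 1 : ℕ) : ENNReal) ≤ ((2 ^ m : ℕ) : ENNReal) := by exact_mod_cast hn
        simpa using this
      have h6 : ν (R ∩ S) + n * ν (R ∩ S) ≤ ν ((Ws n).1 ∩ S) + n * ν (R ∩ S) := by
        refine le_trans (le_of_eq ?_) (h5.trans h4)
        push_cast; ring
      refine (ENNReal.add_le_add_iff_right ?_).1 h6
      exact ENNReal.mul_ne_top (ENNReal.natCast_ne_top n) (measure_ne_top _ _)
    have h7 : ν (R ∩ S) = ν ((R \ L (Ws n)) ∩ S) + ν (L (Ws n)) := by
      rw [← measure_union _ (hL _)]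
      · congr 1
        ext x
        constructor
        · rintro ⟨hx, hxS⟩
          by_cases hxL : x ∈ L (Ws n)
          · right; exact hxL
          · left; exact ⟨⟨hx, hxL⟩, hxS⟩
        · rintro (⟨⟨hx, _⟩, hxS⟩ | hx)
          · exact ⟨hx, hxS⟩
          · exact ⟨hLR _ hx, hLS hx⟩
      · rw [Set.disjoint_left]
        rintro x ⟨⟨_, hx⟩, _⟩ hx'
        exact hx hx'
    have h8 : ν ((R \ L (Ws n)) ∩ S) + ν (L (Ws n)) ≤ ν ((R \ L (Ws n)) ∩ S) + 0 := by
      rw [← h7, add_zero, ← h2]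
      exact h3.trans (measure_mono h1)
    have h9 := (ENNReal.add_le_add_iff_left (measure_ne_top ν _)).1 h8
    exact le_antisymm h9 bot_le
  -- the domain
  set N0 : Set X := ⋃ i : Fin (2 ^ m), L (Ws i) with hN0
  have hN0m : MeasurableSet N0 := MeasurableSet.iUnion fun i => hL _
  have hN0n : ν N0 = 0 := by
    rw [hN0, measure_iUnion_null_iff]
    exact fun i => hLnull i i.isLt
  set Sn : Set X := ⋃ k, s k ⁻¹' N0 with hSn
  have hSnm : MeasurableSet Sn := MeasurableSet.iUnion fun k => hs k hN0m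
  have hSn0 : ν Sn = 0 := sat_null s hs ν hν hN0m hN0n
  set D : Set X := R \ Sn with hD
  have hDm : MeasurableSet D := hR.diff hSnm
  have hDL : ∀ i : Fin (2 ^ m), D ⊆ R \ L (Ws i) := by
    rintro i x ⟨hx, hx2⟩
    refine ⟨hx, fun h => hx2 ?_⟩
    obtain ⟨k, hk⟩ := (hsE x x).1 (hE.refl x)
    rw [hSn]
    simp only [mem_iUnion, mem_preimage]
    refine ⟨k, ?_⟩
    rw [hk, hN0]
    exact mem_iUnion.2 ⟨i, h⟩
  have hDν : ν D = ν R := by
    rw [hD, measure_diff_null hSn0]
  set φ : Fin (2 ^ m) → X → X := fun i => ψ (Ws i) with hφ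
  have hφK : ∀ i : Fin (2 ^ m), φ i '' D ⊆ K i := fun i => image_mono (hDL i)
  have hφi : ∀ i, InjOn (φ i) D := fun i => (hψi _).mono (hDL i)
  have hφm : ∀ i, MeasurableSet (φ i '' D) := fun i =>
    hDm.image_of_measurable_injOn (hψ _) (hφi i)
  have hφC : ∀ i : Fin (2 ^ m), φ i '' D ⊆ C := fun i =>
    (hφK i).trans ((hKsub _).trans (hWC _))
  have hφdis : ∀ i j, i ≠ j → Disjoint (φ i '' D) (φ j '' D) := by
    intro i j hij
    rw [Set.disjoint_left]
    intro y hyi hyj
    have hyi' := hφK i hyi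
    have hyj' := hφK j hyj
    rcases lt_or_gt_of_ne (fun h => hij (Fin.ext h) : (i : ℕ) ≠ j) with h | h
    · exact hKdis i j h y hyi' (hKsub _ hyj')
    · exact hKdis j i h y hyj' (hKsub _ hyi')
  have hCν : ν C = 2 ^ m * ν R := by
    have := hRS univ MeasurableSet.univ (fun _ _ _ _ => mem_univ _)
    simpa using this
  have hφν : ∀ i, ν (φ i '' D) = ν R := fun i => by
    rw [inv_image s hs hinv E hsE ν hν hDm (hψ _) (hψE _) (hφi i), hDν]
  have hUn : ν (⋃ i, φ i '' D) = ν C := by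
    rw [measure_iUnion (fun i j hij => hφdis i j hij) hφm, tsum_fintype]
    simp only [hφν, Finset.sum_const, Finset.card_univ, Fintype.card_fin, nsmul_eq_mul]
    rw [hCν]
    push_cast
    rfl
  have hcover : ν (C \ ⋃ i, φ i '' D) = 0 := by
    rw [measure_diff (iUnion_subset hφC) (MeasurableSet.iUnion hφm).nullMeasurableSet
      (measure_ne_top _ _), hUn, tsub_self]
  -- the invariant colours
  obtain ⟨x0⟩ : Nonempty X := nonempty_of_isProbabilityMeasure ν
  let p : Fin (2 ^ m) → X → ℕ → Prop := fun i x n =>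
    (∃ k, s k x ∈ K i ∧ (v (s k x)).val = n) ∨ r ≤ n
  have hp : ∀ i x, ∃ n, p i x n := fun i x => ⟨r, Or.inr le_rfl⟩
  have hKmi : ∀ i : ℕ, MeasurableSet (K i) := fun i => hKm _
  have hpm : ∀ i n, MeasurableSet {x | p i x n} := by
    intro i n
    have : {x | p i x n} = (⋃ k, s k ⁻¹' (K i ∩ v ⁻¹' {l : Fin r | l.val = n})) ∪
        {x | r ≤ n} := by
      ext x
      simp only [p, mem_setOf_eq, mem_union, mem_iUnion, mem_preimage, mem_inter_iff]
    rw [this]
    refine MeasurableSet.union (MeasurableSet.iUnion fun k => hs k ((hKmi i).inter (hv ?_))) ?_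
    · exact MeasurableSet.of_discrete
    · exact MeasurableSet.const _
  let g : ℕ → Fin r := fun n => if hn : n < r then ⟨n, hn⟩ else v x0
  let w : Fin (2 ^ m) → X → Fin r := fun i x => g (Nat.find (hp i x))
  have hwm : ∀ i, Measurable (w i) := by
    intro i
    have h1 : Measurable fun x => Nat.find (hp i x) := measurable_find (hp i) (hpm i)
    exact (measurable_from_nat (f := g)).comp h1
  have hpinv : ∀ i x y n, E x y → p i x n → p i y n := by
    intro i x y n hxy h
    rcases h with ⟨k, hk1, hk2⟩ | h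
    · left
      have h1 : E x (s k x) := (hsE _ _).2 ⟨k, rfl⟩
      obtain ⟨k', hk'⟩ := (hsE y (s k x)).1 (hE.trans (hE.symm hxy) h1)
      exact ⟨k', by rw [hk']; exact hk1, by rw [hk']; exact hk2⟩
    · right; exact h
  have hwinv : ∀ i x y, E x y → w i x = w i y := by
    intro i x y hxy
    have h1 : Nat.find (hp i x) = Nat.find (hp i y) := by
      apply le_antisymm
      · exact Nat.find_min' _ (hpinv i y x _ (hE.symm hxy) (Nat.find_spec (hp i y)))
      · exact Nat.find_min' _ (hpinv i x y _ hxy (Nat.find_spec (hp i x)))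
    simp only [w, h1]
  -- a point of `K i` sees a colour which is the least one
  have hwmin : ∀ (i : Fin (2 ^ m)) (x : X), x ∈ K i →
      (∃ y, E x y ∧ y ∈ K i ∧ v y = w i x) ∧ w i x ≤ v x := by
    intro i x hx
    obtain ⟨k, hk⟩ := (hsE x x).1 (hE.refl x)
    have hpx : p i x (v x).val := Or.inl ⟨k, by rw [hk]; exact hx, by rw [hk]⟩
    have hle : Nat.find (hp i x) ≤ (v x).val := Nat.find_min' _ hpx
    have hlt : Nat.find (hp i x) < r := lt_of_le_of_lt hle (v x).isLt
    have hg : g (Nat.find (hp i x)) = ⟨Nat.find (hp i x), hlt⟩ := dif_pos hlt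
    constructor
    · rcases Nat.find_spec (hp i x) with ⟨k', h1, h2⟩ | h
      · refine ⟨s k' x, (hsE _ _).2 ⟨k', rfl⟩, h1, ?_⟩
        apply Fin.ext
        simp only [w]
        rw [hg, h2]
      · omega
    · simp only [w]
      rw [hg]
      exact hle
  -- the bad points of `D`
  set B : Fin (2 ^ m) → Set X := fun i => {x | x ∈ D ∧ v (φ i x) ≠ w i x} with hB
  have hBm : ∀ i, MeasurableSet (B i) := by
    intro i
    have h1 : Measurable fun x => (v (φ i x), w i x) := (hv.comp (hψ _)).prodMk (hwm i)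
    have h2 : B i = D ∩ (fun x => (v (φ i x), w i x)) ⁻¹' {q : Fin r × Fin r | q.1 ≠ q.2} := by
      ext x
      simp only [hB, mem_setOf_eq, mem_inter_iff, mem_preimage]
    rw [h2]
    exact hDm.inter (h1 MeasurableSet.of_discrete)
  have hcard : ∀ x ∈ D, (Finset.univ.filter fun i => x ∈ B i).card ≤ r := by
    intro x hxD
    have hinj : Set.InjOn (fun i => w i x)
        ((Finset.univ.filter fun i => x ∈ B i : Finset (Fin (2 ^ m))) : Set (Fin (2 ^ m))) := by
      have key : ∀ i j : Fin (2 ^ m), (i : ℕ) < j → x ∈ B i → x ∈ B j → w i x ≠ w j x := by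
        intro i j hij hi hj he
        have hxi : φ i x ∈ K i := hφK i ⟨x, hxD, rfl⟩
        have hxj : φ j x ∈ K j := hφK j ⟨x, hxD, rfl⟩
        have hwi : w i (φ i x) = w i x := (hwinv i _ _ (hψE _ x)).symm
        have hwj : w j (φ j x) = w j x := (hwinv j _ _ (hψE _ x)).symm
        obtain ⟨_, hle⟩ := hwmin i _ hxi
        obtain ⟨⟨z, hz1, hz2, hz3⟩, _⟩ := hwmin j _ hxj
        rw [hwi] at hle
        rw [hwj, ← he] at hz3
        have hlt : v z < v (φ i x) := by
          rw [hz3]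
          exact lt_of_le_of_ne hle (fun h => hi.2 h.symm)
        have hEz : E (φ i x) z :=
          hE.trans (hE.symm (hψE _ x)) (hE.trans (hψE (Ws j) x) hz1)
        have hzW : z ∈ (Ws j).1 := hKsub _ hz2
        have hzWi : z ∈ (Ws i).1 := hanti i j hij.le hzW
        have hzK : z ∈ K i := hb (Ws i) _ hxi z hzWi hEz hlt
        exact hKdis i j hij z hzK hzW
      intro i hi j hj he
      simp only [Finset.coe_filter, Finset.mem_univ, true_and, mem_setOf_eq] at hi hj
      by_contra hne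
      rcases lt_or_gt_of_ne (fun h => hne (Fin.ext h) : (i : ℕ) ≠ j) with h | h
      · exact key i j h hi hj he
      · exact key j i h hj hi he.symm
    have := Finset.card_le_card_of_injOn (s := Finset.univ.filter fun i => x ∈ B i)
      (t := (Finset.univ : Finset (Fin r))) (fun i => w i x) (fun _ _ => Finset.mem_univ _) hinj
    simpa using this
  have hsum : ∑ i, ν (B i) ≤ r * ν D := by
    calc ∑ i, ν (B i) = ∑ i, ∫⁻ x, (B i).indicator 1 x ∂ν := by
            congr 1; ext i; rw [lintegral_indicator_one (hBm i)]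
      _ = ∫⁻ x, ∑ i, (B i).indicator 1 x ∂ν := by
            rw [lintegral_finset_sum]
            intro i _
            exact (measurable_one.indicator (hBm i))
      _ ≤ ∫⁻ x, D.indicator (fun _ => (r : ENNReal)) x ∂ν := by
            apply lintegral_mono
            intro x
            by_cases hx : x ∈ D
            · simp only [indicator_of_mem hx]
              have h1 : ∑ i, (B i).indicator (1 : X → ENNReal) x =
                  ((Finset.univ.filter fun i => x ∈ B i).card : ENNReal) := by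
                rw [Finset.card_filter]
                push_cast
                apply Finset.sum_congr rfl
                intro i _
                by_cases hi : x ∈ B i
                · simp [hi]
                · simp [hi]
              rw [h1]
              exact_mod_cast hcard x hx
            · have h1 : ∀ i, x ∉ B i := fun i h => hx h.1
              simp [h1]
      _ = r * ν D := by
            rw [lintegral_indicator hDm, lintegral_const, Measure.restrict_apply_univ]
  refine ⟨D, φ, w, hDm, diff_subset.trans hRC, fun i => hψ _, fun i x => hψE _ x, hφi,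
    fun i x hx => hφC i ⟨x, hx, rfl⟩, hφdis, hcover, hwm, hwinv, ?_⟩
  have hsubset : {x | x ∈ C ∧ ∃ i, x ∈ φ i '' D ∧ v x ≠ w i x} ⊆ ⋃ i, φ i '' (B i) := by
    rintro y ⟨_, i, ⟨x, hx, rfl⟩, hne⟩
    refine mem_iUnion.2 ⟨i, x, ⟨hx, ?_⟩, rfl⟩
    rw [hwinv i x (φ i x) (hψE _ x)]
    exact hne
  calc ν {x | x ∈ C ∧ ∃ i, x ∈ φ i '' D ∧ v x ≠ w i x}
      ≤ ν (⋃ i, φ i '' (B i)) := measure_mono hsubset
    _ ≤ ∑ i, ν (φ i '' (B i)) := measure_iUnion_fintype_le _ _
    _ = ∑ i, ν (B i) := by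
        congr 1; ext i
        exact inv_image s hs hinv E hsE ν hν (hBm i) (hψ _) (hψE _)
          ((hφi i).mono fun x hx => hx.1)
    _ ≤ r * ν D := hsum
    _ = (r : ENNReal) / 2 ^ m * ν C := by
        rw [hDν, hCν, ← mul_assoc, ENNReal.div_mul_cancel]
        · positivity
        · exact ENNReal.pow_ne_top (by simp)

end Pool.Agent.TH926.CR
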