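import Pool.Agent.TH185.Tw

/-!
Job 382 (KAC-6, helper185): the number of stable sublattices of given colength with prescribed
intersection with a line does not depend on the bundle.
-/

set_option autoImplicit false
set_option linter.unusedSectionVars false

open scoped WithZero Matrix
open WithZero

namespace Pool.Agent.TH185

open Pool.Agent.TH185.C

namespace J382

/-! ### submodules stable under a semilinear map -/

theorem stable_submodules_finite {𝕜 V : Type*} [Field 𝕜] [IsAlgClosed 𝕜] (p : ℕ) [Fact p.Prime]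
    [CharP 𝕜 p] [AddCommGroup V] [Module 𝕜 V] (e : ℕ) (he : 0 < e) (σ : V →+ V)
    (hσ : ∀ (c : 𝕜) (v : V), σ (c • v) = c ^ (p ^ e) • σ v)
    (hfin : ∀ v, ∃ n : ℕ, 0 < n ∧ σ^[n] v = v) (W : Submodule 𝕜 V) [FiniteDimensional 𝕜 W]
    (hW : ∀ x ∈ W, σ x ∈ W) :
    {N : Submodule 𝕜 V | N ≤ W ∧ ∀ x ∈ N, σ x ∈ N}.Finite := by
  have key : ∀ N : Submodule 𝕜 V, N ≤ W → (∀ x ∈ N, σ x ∈ N) →
      ({x | σ x = x} ∩ (N : Set V)).Finite ∧ Submodule.span 𝕜 ({x | σ x = x} ∩ (N : Set V)) = N := by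
    intro N hNW hN
    have : FiniteDimensional 𝕜 N := Submodule.finiteDimensional_of_le hNW
    let τ : N →+ N :=
      { toFun := fun x => ⟨σ x.1, hN _ x.2⟩
        map_zero' := Subtype.ext (map_zero σ)
        map_add' := fun x y => Subtype.ext (map_add σ _ _) }
    have hτ : ∀ x : N, (τ x : V) = σ x := fun _ => rfl
    have hit : ∀ (n : ℕ) (x : N), ((τ^[n] x : N) : V) = σ^[n] x := by
      intro n
      induction n with
      | zero => intro x; rfl
      | succ n ih => intro x; rw [Function.iterate_succ_apply, ih, Function.iterate_succ_apply, hτ]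
    obtain ⟨h1, -, h2⟩ := semilinear p e he τ (fun c x => Subtype.ext (by
      rw [hτ, Submodule.coe_smul, hσ, Submodule.coe_smul, hτ])) (fun x => by
        obtain ⟨n, hn, h⟩ := hfin x
        exact ⟨n, hn, Subtype.ext (by rw [hit, h])⟩)
    have himg : {x | σ x = x} ∩ (N : Set V) = N.subtype '' {x | τ x = x} := by
      ext x
      constructor
      · rintro ⟨hx, hxN⟩
        exact ⟨⟨x, hxN⟩, Subtype.ext hx, rfl⟩
      · rintro ⟨y, hy, rfl⟩
        exact ⟨congrArg Subtype.val hy, y.2⟩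
    rw [himg]
    refine ⟨h1.image _, ?_⟩
    rw [Submodule.span_image, h2, Submodule.map_top, Submodule.range_subtype]
  have hfinW := (key W le_rfl hW).1
  refine (hfinW.powerset.image (Submodule.span 𝕜)).subset ?_
  rintro N ⟨hNW, hN⟩
  exact ⟨{x | σ x = x} ∩ (N : Set V), fun x hx => ⟨hx.1, hNW hx.2⟩, (key N hNW hN).2⟩

variable {𝕜 K : Type} [Field 𝕜] [IsAlgClosed 𝕜] [Field K] [Algebra 𝕜 K] {n : ℕ}

/-- the vectors whose coordinates have order at least `m` -/
def ball (v : Point 𝕜 K) (m : ℕ) : Submodule 𝕜 (Fin 2 → K) where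
  carrier := {x | ∀ i, v.val (x i) ≤ exp (-(m : ℤ))}
  add_mem' := fun ha hb i => Valuation.map_add_le _ (ha i) (hb i)
  zero_mem' := fun i => by rw [Pi.zero_apply, map_zero]; exact zero_le
  smul_mem' := by
    intro c x hx i
    rw [Pi.smul_apply, Algebra.smul_def, map_mul]
    exact (mul_le_of_le_one_left' (v.const_le c)).trans (hx i)

theorem mem_ball (v : Point 𝕜 K) (m : ℕ) (x : Fin 2 → K) :
    x ∈ ball v m ↔ ∀ i, v.val (x i) ≤ exp (-(m : ℤ)) := Iff.rfl

theorem ball_step (hK : IsCurve 𝕜 K) (v : Point 𝕜 K) (m : ℕ) :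
    ball v m ≤ Submodule.span 𝕜 (Set.range fun j : Fin 2 => Pi.single j (unif v ^ m)) ⊔
      ball v (m + 1) := by
  intro x hx
  have hu0 := unif_ne_zero v
  have hvu : v.val (unif v ^ m) = exp (-(m : ℤ)) := by
    rw [map_pow, val_unif, ← exp_nsmul]
    congr 1
    simp
  have h1 : ∀ j, ∃ c : 𝕜, v.val (x j - algebraMap 𝕜 K c * unif v ^ m) ≤ exp (-((m + 1 : ℕ) : ℤ)) := by
    intro j
    have h2 : v.val (x j / unif v ^ m) ≤ 1 := by
      rw [map_div₀, hvu]
      exact (div_le_one₀ (zero_lt_iff.2 exp_ne_zero)).2 (hx j)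
    obtain ⟨c, hc⟩ := exists_res hK v h2
    refine ⟨c, ?_⟩
    rw [C.val_lt_one_iff, val_unif] at hc
    have h3 : x j - algebraMap 𝕜 K c * unif v ^ m =
        (x j / unif v ^ m - algebraMap 𝕜 K c) * unif v ^ m := by
      field_simp
    rw [h3, map_mul, hvu]
    refine (mul_le_mul_left hc _).trans ?_
    rw [← exp_add]
    apply le_of_eq
    congr 1
    push_cast
    ring
  choose c hc using h1
  have h4 : x = (∑ j, c j • (Pi.single j (unif v ^ m) : Fin 2 → K)) +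
      (x - ∑ j, c j • (Pi.single j (unif v ^ m) : Fin 2 → K)) := by abel
  rw [h4]
  refine Submodule.add_mem_sup (Submodule.sum_mem _ fun j _ => Submodule.smul_mem _ _
    (Submodule.subset_span ⟨j, rfl⟩)) ?_
  intro i
  have h5 : (x - ∑ j, c j • (Pi.single j (unif v ^ m) : Fin 2 → K)) i =
      x i - algebraMap 𝕜 K (c i) * unif v ^ m := by
    rw [Pi.sub_apply, Finset.sum_apply, Finset.sum_eq_single i]
    · rw [Pi.smul_apply, Pi.single_eq_same, Algebra.smul_def]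
    · intro j _ hj
      rw [Pi.smul_apply, Pi.single_eq_of_ne hj.symm, smul_zero]
    · simp
  rw [h5]
  exact hc i

theorem ball_fg (hK : IsCurve 𝕜 K) (v : Point 𝕜 K) (m : ℕ) :
    ∃ P : Submodule 𝕜 (Fin 2 → K), P.FG ∧ ball v 0 ≤ P ⊔ ball v m := by
  induction m with
  | zero => exact ⟨⊥, Submodule.fg_bot, le_sup_right⟩
  | succ m ih =>
    obtain ⟨P, hP, h⟩ := ih
    refine ⟨P ⊔ Submodule.span 𝕜 (Set.range fun j : Fin 2 => Pi.single j (unif v ^ m)),
      hP.sup (Submodule.fg_span (Set.finite_range _)), ?_⟩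
    refine h.trans (sup_le (le_sup_left.trans le_sup_left) ((ball_step hK v m).trans ?_))
    exact sup_le (le_sup_right.trans le_sup_left) le_sup_right

theorem local_fin (hK : IsCurve 𝕜 K) (S : FD 𝕜 K) (v : Point 𝕜 K) (hv : S.pt v = v) (k : ℕ) :
    {L : Set (Fin 2 → K) | ∃ N : Submodule 𝕜 (Fin 2 → K), (N : Set (Fin 2 → K)) = L ∧
      ball v k ≤ N ∧ N ≤ ball v 0 ∧ ∀ x ∈ N, S.vec x ∈ N}.Finite := by
  have : Fact S.p.Prime := ⟨S.prime⟩
  have := S.char
  have hval : ∀ z : K, v.val (S.ψ z) = v.val z := by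
    intro z
    have := S.pt_val v z
    rwa [hv] at this
  let f : (Fin 2 → K) →ₛₗ[iterateFrobenius 𝕜 S.p S.e] (Fin 2 → K) :=
    { toFun := S.vec
      map_add' := S.vec_add
      map_smul' := by
        intro c x
        ext i
        rw [FD.vec_apply, Pi.smul_apply, Pi.smul_apply, Algebra.smul_def, map_mul, S.const,
          Algebra.smul_def, FD.vec_apply, iterateFrobenius_def] }
  have hf : ∀ x, f x = S.vec x := fun _ => rfl
  have hball : ∀ m, ∀ x ∈ ball v m, S.vec x ∈ ball v m := by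
    intro m x hx i
    rw [FD.vec_apply, hval]
    exact hx i
  let g := Submodule.mapQ (ball v k) (ball v k) f (fun x hx => hball k x hx)
  have hg : ∀ x, g ((ball v k).mkQ x) = (ball v k).mkQ (S.vec x) := fun x => rfl
  have hgit : ∀ (m : ℕ) x, g^[m] ((ball v k).mkQ x) = (ball v k).mkQ (S.vec^[m] x) := by
    intro m
    induction m with
    | zero => intro x; rfl
    | succ m ih => intro x; rw [Function.iterate_succ_apply, hg, ih, Function.iterate_succ_apply]
  set W := (ball v 0).map (ball v k).mkQ with hWdef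
  obtain ⟨P, hP, hPb⟩ := ball_fg hK v k
  have hW1 : FiniteDimensional 𝕜 (P.map (ball v k).mkQ) := Module.Finite.iff_fg.2 (hP.map _)
  have hW : FiniteDimensional 𝕜 W := by
    refine Submodule.finiteDimensional_of_le (S₂ := P.map (ball v k).mkQ) ?_
    refine (Submodule.map_mono hPb).trans ?_
    rw [Submodule.map_sup]
    refine sup_le le_rfl ?_
    rw [Submodule.map_le_iff_le_comap]
    intro x hx
    rw [Submodule.mem_comap, Submodule.mkQ_apply, (Submodule.Quotient.mk_eq_zero _).2 hx]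
    exact Submodule.zero_mem _
  have hmain := stable_submodules_finite (𝕜 := 𝕜) S.p S.e S.epos (σ := g.toAddMonoidHom) (by
    intro c x
    change g (c • x) = _
    rw [map_smulₛₗ, iterateFrobenius_def]
    rfl) (by
    intro x
    obtain ⟨x, rfl⟩ := (ball v k).mkQ_surjective x
    obtain ⟨m0, hm0, h0⟩ := S.locFin (x 0)
    obtain ⟨m1, hm1, h1⟩ := S.locFin (x 1)
    refine ⟨m0 * m1, Nat.mul_pos hm0 hm1, ?_⟩
    change g^[m0 * m1] _ = _
    rw [hgit]
    congr 1
    have h2 : ∀ (m : ℕ) (y : Fin 2 → K) i, (S.vec^[m] y) i = (S.ψ ^ m) (y i) := by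
      intro m
      induction m with
      | zero => intro y i; simp
      | succ m ih => intro y i; rw [Function.iterate_succ_apply, ih, pow_succ, RingAut.mul_apply]; rfl
    have h3 : ∀ (z : K) (a b : ℕ), (S.ψ ^ a) z = z → (S.ψ ^ (a * b)) z = z := by
      intro z a b h
      induction b with
      | zero => simp
      | succ b ih => rw [Nat.mul_succ, pow_add, RingAut.mul_apply, h, ih]
    ext i
    rw [h2]
    fin_cases i
    · exact h3 _ _ _ h0
    · rw [mul_comm]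
      exact h3 _ _ _ h1) W (by
    rintro x ⟨y, hy, rfl⟩
    exact ⟨S.vec y, hball 0 y hy, rfl⟩)
  refine (hmain.image fun N => ((N.comap (ball v k).mkQ : Submodule 𝕜 (Fin 2 → K)) :
    Set (Fin 2 → K))).subset ?_
  rintro L ⟨N, rfl, h1, h2, h3⟩
  refine ⟨N.map (ball v k).mkQ, ⟨Submodule.map_mono h2, ?_⟩, ?_⟩
  · rintro x ⟨y, hy, rfl⟩
    exact ⟨S.vec y, h3 y hy, rfl⟩
  · simp only
    rw [Submodule.comap_map_mkQ, sup_eq_right.2 h1]

/-! ### orders of determinants -/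

theorem ord_det_le (v : Point 𝕜 K) (f g : GL (Fin n) K)
    (h : ∀ x, v.Reg (f⁻¹.1 *ᵥ x) → v.Reg (g⁻¹.1 *ᵥ x)) : v.ord g.1.det ≤ v.ord f.1.det := by
  have h1 : v.RegM (g⁻¹ * f).1 := by
    apply v.regM_of_forall
    intro s hs
    rw [Units.val_mul, ← Matrix.mulVec_mulVec]
    apply h
    rwa [gl_inv_mulVec]
  have h2 := (v.val_le_one_iff (gl_det_ne_zero _)).1 (v.val_det_le_one _ h1)
  rw [Units.val_mul, Matrix.det_mul, gl_inv_det, v.ord_mul (inv_ne_zero (gl_det_ne_zero _))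
    (gl_det_ne_zero _), v.ord_inv] at h2
  omega

theorem ord_det_eq (v : Point 𝕜 K) (f g : GL (Fin n) K)
    (h : ∀ x, v.Reg (f⁻¹.1 *ᵥ x) ↔ v.Reg (g⁻¹.1 *ᵥ x)) : v.ord f.1.det = v.ord g.1.det :=
  le_antisymm (ord_det_le v g f fun x => (h x).2) (ord_det_le v f g fun x => (h x).1)

/-! ### transport of bundles -/

/-- pull-back of a family under a family of automorphisms -/
def pull (γ : Point 𝕜 K → GL (Fin n) K) (F : Fam 𝕜 K n) : Fam 𝕜 K n :=
  fun v => {x | (γ v).1 *ᵥ x ∈ F v}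

theorem pull_inv (γ : Point 𝕜 K → GL (Fin n) K) (F : Fam 𝕜 K n) :
    pull γ (pull (fun v => (γ v)⁻¹) F) = F := by
  ext v x
  change (γ v)⁻¹.1 *ᵥ ((γ v).1 *ᵥ x) ∈ F v ↔ _
  rw [gl_inv_mulVec]

/-- `γ` is an equivariant family of isomorphisms of the stalks of `G'` with those of `G` -/
structure Tr (S : FD 𝕜 K) (G G' : Bundle 𝕜 K n) (γ : Point 𝕜 K → GL (Fin n) K) : Prop where
  st : ∀ v x, x ∈ G'.stalk v ↔ (γ v).1 *ᵥ x ∈ G.stalk v
  eq : ∀ v x, (γ (S.pt v)).1 *ᵥ (S.vec x) = S.vec ((γ v).1 *ᵥ x)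

variable {S : FD 𝕜 K} {G G' : Bundle 𝕜 K n} {γ : Point 𝕜 K → GL (Fin n) K}

theorem Tr.symm (h : Tr S G G' γ) : Tr S G' G (fun v => (γ v)⁻¹) where
  st v x := by
    rw [h.st, gl_mulVec_inv]
  eq v x := by
    have h1 := h.eq v ((γ v)⁻¹.1 *ᵥ x)
    rw [gl_mulVec_inv] at h1
    rw [← h1, gl_inv_mulVec]

theorem Tr.pull_stable (h : Tr S G G' γ) {F : Fam 𝕜 K n} (hF : Stable S.ψ F) :
    Stable S.ψ (pull γ F) := by
  rw [S.stable_iff] at hF ⊢
  intro v s
  change (γ v).1 *ᵥ s ∈ F v ↔ (γ (S.pt v)).1 *ᵥ (S.vec s) ∈ F (S.pt v)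
  rw [h.eq, hF]

theorem Tr.pull_le (h : Tr S G G' γ) {F : Fam 𝕜 K n} (hF : ∀ v, F v ⊆ G.stalk v) (v : Point 𝕜 K) :
    pull γ F v ⊆ G'.stalk v := fun _ hx => (h.st v _).2 (hF v hx)

/-- the transported bundle -/
def Tr.trans (h : Tr S G G' γ) (E : Bundle 𝕜 K n) : Bundle 𝕜 K n where
  frame v := (γ v)⁻¹ * E.frame v
  finite := by
    refine (G.finite.union (G'.finite.union E.finite)).subset fun v hv => ?_
    by_contra hcon
    simp only [Set.mem_union, Set.mem_ofPred_eq, not_or, not_not] at hcon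
    obtain ⟨h1, h2, h3⟩ := hcon
    apply hv
    have hG : ∀ x, x ∈ G.stalk v ↔ v.Reg x := by
      intro x
      constructor
      · intro hx
        have := Point.RegM.mulVec (v := v) h1.1 ((mem_stalk_iff G v x).1 hx)
        rwa [gl_mulVec_inv] at this
      · intro hx
        exact (mem_stalk_iff G v x).2 (Point.RegM.mulVec (v := v) h1.2 hx)
    have hG' : ∀ x, x ∈ G'.stalk v ↔ v.Reg x := by
      intro x
      constructor
      · intro hx
        have := Point.RegM.mulVec (v := v) h2.1 ((mem_stalk_iff G' v x).1 hx)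
        rwa [gl_mulVec_inv] at this
      · intro hx
        exact (mem_stalk_iff G' v x).2 (Point.RegM.mulVec (v := v) h2.2 hx)
    obtain ⟨h4, h5⟩ := regM_of_stalk (v := v) (h := (γ v)⁻¹) (by
      intro s
      rw [inv_inv, ← hG', h.st, hG])
    constructor
    · intro i j
      rw [Units.val_mul]
      exact Point.RegM.mul h4 h3.1 i j
    · intro i j
      rw [mul_inv_rev, Units.val_mul]
      exact Point.RegM.mul h3.2 h5 i j

theorem Tr.trans_inv_mulVec (h : Tr S G G' γ) (E : Bundle 𝕜 K n) (v : Point 𝕜 K) (x : Fin n → K) :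
    ((h.trans E).frame v)⁻¹.1 *ᵥ x = (E.frame v)⁻¹.1 *ᵥ ((γ v).1 *ᵥ x) := by
  change ((γ v)⁻¹ * E.frame v)⁻¹.1 *ᵥ x = _
  rw [mul_inv_rev, inv_inv, Units.val_mul, Matrix.mulVec_mulVec]

theorem Tr.trans_stalk (h : Tr S G G' γ) (E : Bundle 𝕜 K n) :
    (h.trans E).stalk = pull γ E.stalk := by
  ext v x
  rw [mem_stalk_iff, h.trans_inv_mulVec]
  rfl

theorem Tr.nval_trans (h : Tr S G G' γ) (E : Bundle 𝕜 K n) (v : Point 𝕜 K) (x : Fin n → K) :
    nval (h.trans E) v x = nval E v ((γ v).1 *ᵥ x) := by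
  rw [nval, h.trans_inv_mulVec]
  rfl

theorem Tr.ord_trans (h : Tr S G G' γ) (E : Bundle 𝕜 K n) (v : Point 𝕜 K) :
    -v.ord ((h.trans E).frame v).1.det - -v.ord (G'.frame v).1.det =
      -v.ord (E.frame v).1.det - -v.ord (G.frame v).1.det := by
  have h1 : ∀ E : Bundle 𝕜 K n, v.ord ((h.trans E).frame v).1.det =
      -v.ord (γ v).1.det + v.ord (E.frame v).1.det := by
    intro E
    change v.ord ((γ v)⁻¹ * E.frame v).1.det = _
    rw [Units.val_mul, Matrix.det_mul, gl_inv_det, v.ord_mul (inv_ne_zero (gl_det_ne_zero _))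
      (gl_det_ne_zero _), v.ord_inv]
  have h2 : v.ord ((h.trans G).frame v).1.det = v.ord (G'.frame v).1.det := by
    apply ord_det_eq
    intro x
    rw [h.trans_inv_mulVec, ← mem_stalk_iff, ← mem_stalk_iff, h.st]
  rw [← h2, h1, h1]
  ring

theorem finite_neg_det (E : Bundle 𝕜 K n) :
    (Function.support fun v : Point 𝕜 K => -v.ord (E.frame v).1.det).Finite := by
  refine E.finite_det.subset fun v hv h => hv ?_
  change -v.ord (E.frame v).1.det = 0
  rw [h, neg_zero]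

theorem Tr.degree_trans (h : Tr S G G' γ) (E : Bundle 𝕜 K n) :
    (h.trans E).degree - G'.degree = E.degree - G.degree := by
  rw [Bundle.degree, Bundle.degree, Bundle.degree, Bundle.degree,
    ← finsum_sub_distrib (finite_neg_det _) (finite_neg_det _),
    ← finsum_sub_distrib (finite_neg_det _) (finite_neg_det _)]
  exact finsum_congr fun v => h.ord_trans E v

theorem Tr.vdeg_trans (hK : IsCurve 𝕜 K) (h : Tr S G G' γ) (E : Bundle 𝕜 K n) {s s' : Fin n → K}
    (hs : s ≠ 0) (hs' : s' ≠ 0) (hγ : ∀ v, ∃ a : K, a ≠ 0 ∧ (γ v).1 *ᵥ s' = a • s) :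
    vdeg (h.trans E) s' - vdeg G' s' = vdeg E s - vdeg G s := by
  rw [vdeg, vdeg, vdeg, vdeg,
    ← finsum_sub_distrib (vord_finite hK _ hs') (vord_finite hK _ hs'),
    ← finsum_sub_distrib (vord_finite hK _ hs) (vord_finite hK _ hs)]
  refine finsum_congr fun v => ?_
  obtain ⟨a, ha, hav⟩ := hγ v
  have h1 : ∀ E : Bundle 𝕜 K n, vord (h.trans E) v s' = v.ord a + vord E v s := by
    intro E
    rw [← vord_smul E v ha hs, vord, h.nval_trans, hav, vord]
  have h2 : vord G' v s' = vord (h.trans G) v s' := by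
    rw [vord, vord, nval_congr (E := G') (F := h.trans G) (v := v) (by
      rw [h.trans_stalk]
      ext x
      exact h.st v x)]
  rw [h2, h1, h1]
  ring

/-- the stable subsheaves of colength `k` -/
def setA (S : FD 𝕜 K) (G : Bundle 𝕜 K n) (k : ℕ) : Set (Fam 𝕜 K n) :=
  {F | Stable S.ψ F ∧ (∀ v, F v ⊆ G.stalk v) ∧
    ∃ E : Bundle 𝕜 K n, E.degree = G.degree - k ∧ F = E.stalk}

/-- the stable subsheaves of colength `k` with given intersection with a line -/
def setB (S : FD 𝕜 K) (G : Bundle 𝕜 K n) (k : ℕ) (s : Fin n → K) (j : ℤ) : Set (Fam 𝕜 K n) :=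
  {F | Stable S.ψ F ∧ (∀ v, F v ⊆ G.stalk v) ∧
    ∃ E : Bundle 𝕜 K n, E.degree = G.degree - k ∧ F = E.stalk ∧ vdeg E s = vdeg G s - j}

theorem Tr.mapsA (h : Tr S G G' γ) {k : ℕ} {F : Fam 𝕜 K n} (hF : F ∈ setA S G k) :
    pull γ F ∈ setA S G' k := by
  obtain ⟨h1, h2, E, h3, rfl⟩ := hF
  refine ⟨h.pull_stable h1, h.pull_le h2, h.trans E, ?_, (h.trans_stalk E).symm⟩
  have := h.degree_trans E
  omega

theorem Tr.mapsB (hK : IsCurve 𝕜 K) (h : Tr S G G' γ) {k : ℕ} {s s' : Fin n → K} (hs : s ≠ 0)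
    (hs' : s' ≠ 0) (hγ : ∀ v, ∃ a : K, a ≠ 0 ∧ (γ v).1 *ᵥ s' = a • s) {j : ℤ} {F : Fam 𝕜 K n}
    (hF : F ∈ setB S G k s j) : pull γ F ∈ setB S G' k s' j := by
  obtain ⟨h1, h2, E, h3, rfl, h4⟩ := hF
  refine ⟨h.pull_stable h1, h.pull_le h2, h.trans E, ?_, (h.trans_stalk E).symm, ?_⟩
  · have := h.degree_trans E
    omega
  · have := h.vdeg_trans hK E hs hs' hγ
    omega

theorem pull_injective (γ : Point 𝕜 K → GL (Fin n) K) : Function.Injective (pull γ) := by
  intro F F' h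
  have h1 := pull_inv (fun v => (γ v)⁻¹) F
  have h2 := pull_inv (fun v => (γ v)⁻¹) F'
  simp only [inv_inv] at h1 h2
  rw [← h1, ← h2, h]

theorem Tr.finiteA (h : Tr S G G' γ) {k : ℕ} (hA : (setA S G' k).Finite) : (setA S G k).Finite :=
  Set.Finite.of_injOn (f := pull γ) (fun _ hF => h.mapsA hF) (pull_injective γ).injOn hA

theorem Tr.ncardB (hK : IsCurve 𝕜 K) (h : Tr S G G' γ) {k : ℕ} {s s' : Fin n → K} (hs : s ≠ 0)
    (hs' : s' ≠ 0) (hγ : ∀ v, ∃ a : K, a ≠ 0 ∧ (γ v).1 *ᵥ s' = a • s) (j : ℤ) :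
    (setB S G k s j).ncard = (setB S G' k s' j).ncard := by
  have hγ' : ∀ v, ∃ a : K, a ≠ 0 ∧ (γ v)⁻¹.1 *ᵥ s = a • s' := by
    intro v
    obtain ⟨a, ha, h1⟩ := hγ v
    refine ⟨a⁻¹, inv_ne_zero ha, ?_⟩
    have h2 : (γ v)⁻¹.1 *ᵥ ((γ v).1 *ᵥ s') = (γ v)⁻¹.1 *ᵥ (a • s) := by rw [h1]
    rw [gl_inv_mulVec, Matrix.mulVec_smul] at h2
    rw [h2, smul_smul, inv_mul_cancel₀ ha, one_smul]
  refine Set.ncard_congr (fun F _ => pull γ F) (fun F hF => h.mapsB hK hs hs' hγ hF)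
    (fun F F' _ _ hFF => pull_injective γ hFF) (fun F hF => ?_)
  exact ⟨pull (fun v => (γ v)⁻¹) F, h.symm.mapsB hK hs' hs hγ' hF, pull_inv γ F⟩

/-! ### subsheaves of the trivial bundle -/

theorem mem_triv (v : Point 𝕜 K) (x : Fin n → K) : x ∈ (trivialBundle 𝕜 K n).stalk v ↔ v.Reg x := by
  rw [mem_stalk_iff]
  change v.Reg ((1 : GL (Fin n) K)⁻¹.1 *ᵥ x) ↔ _
  rw [inv_one, Units.val_one, Matrix.one_mulVec]

theorem regM_sub {E : Bundle 𝕜 K n} {v : Point 𝕜 K}
    (h : E.stalk v ⊆ (trivialBundle 𝕜 K n).stalk v) : v.RegM (E.frame v).1 :=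
  v.regM_of_forall fun _ hs => (mem_triv v _).1 (h (frame_mulVec_mem E v hs))

theorem ord_det_nonneg {E : Bundle 𝕜 K n} {v : Point 𝕜 K}
    (h : E.stalk v ⊆ (trivialBundle 𝕜 K n).stalk v) : 0 ≤ v.ord (E.frame v).1.det :=
  (v.val_le_one_iff (gl_det_ne_zero _)).1 (v.val_det_le_one _ (regM_sub h))

theorem inv_le {v : Point 𝕜 K} {f : GL (Fin n) K} (hf : v.RegM f.1) {x : Fin n → K} {c : ℤᵐ⁰}
    (hx : ∀ j, v.val (x j) ≤ c) (i : Fin n) :
    v.val ((f⁻¹.1 *ᵥ x) i) ≤ exp (v.ord f.1.det) * c := by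
  have h1 : f⁻¹.1 = f.1.det⁻¹ • f.1.adjugate := by
    rw [Matrix.coe_units_inv, Matrix.inv_def, Ring.inverse_eq_inv']
  rw [h1, Matrix.smul_mulVec, Pi.smul_apply, smul_eq_mul, map_mul, map_inv₀,
    v.val_eq_exp (gl_det_ne_zero f), ← exp_neg, neg_neg]
  refine mul_le_mul_right ?_ _
  rw [Matrix.mulVec, dotProduct]
  refine Valuation.map_sum_le _ fun j _ => ?_
  rw [map_mul]
  exact (mul_le_of_le_one_left' (hf.adjugate i j)).trans (hx j)

theorem stalk_eq_of_ord {E : Bundle 𝕜 K n} {v : Point 𝕜 K}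
    (h : E.stalk v ⊆ (trivialBundle 𝕜 K n).stalk v) (h0 : v.ord (E.frame v).1.det = 0) :
    E.stalk v = (trivialBundle 𝕜 K n).stalk v := by
  refine Set.Subset.antisymm h fun x hx => ?_
  rw [mem_triv] at hx
  rw [mem_stalk_iff]
  exact ((regM_sub h).inv ((v.val_eq_one_iff (gl_det_ne_zero _)).2 h0)).mulVec hx

theorem sum_ord_det {E : Bundle 𝕜 K n} {k : ℕ}
    (hd : E.degree = (trivialBundle 𝕜 K n).degree - k) :
    ∑ᶠ v : Point 𝕜 K, v.ord (E.frame v).1.det = k := by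
  rw [trivialBundle_degree, Bundle.degree,
    finsum_neg_distrib (fun v : Point 𝕜 K => v.ord (E.frame v).1.det)] at hd
  omega

theorem ord_pt (S : FD 𝕜 K) {E : Bundle 𝕜 K n} (hE : Stable S.ψ E.stalk) (v : Point 𝕜 K) :
    (S.pt v).ord (E.frame (S.pt v)).1.det = v.ord (E.frame v).1.det := by
  rw [S.stable_iff] at hE
  set f' : GL (Fin n) K := Matrix.GeneralLinearGroup.map S.ψ.toRingHom (E.frame v) with hf'
  have h1 : ∀ x, f'⁻¹.1 *ᵥ S.vec x = S.vec ((E.frame v)⁻¹.1 *ᵥ x) := by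
    intro x
    rw [hf', ← map_inv]
    ext i
    rw [FD.vec_apply, Matrix.mulVec, Matrix.mulVec, dotProduct, dotProduct, map_sum]
    refine Finset.sum_congr rfl fun j _ => ?_
    rw [map_mul]
    rfl
  have h2 : ∀ x : Fin n → K, (S.pt v).Reg (S.vec x) ↔ v.Reg x := by
    intro x
    refine forall_congr' fun i => ?_
    rw [FD.vec_apply, S.pt_val]
  have h3 : (S.pt v).ord (E.frame (S.pt v)).1.det = (S.pt v).ord f'.1.det := by
    apply ord_det_eq
    intro y
    obtain ⟨x, rfl⟩ : ∃ x, S.vec x = y := ⟨fun i => S.ψ.symm (y i), by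
      ext i
      rw [FD.vec_apply, RingEquiv.apply_symm_apply]⟩
    rw [h1, h2, ← mem_stalk_iff, ← mem_stalk_iff, ← hE]
  rw [h3]
  have h4 : f'.1.det = S.ψ (E.frame v).1.det := by
    have := RingHom.map_det S.ψ.toRingHom (E.frame v).1
    exact this.symm
  rw [h4, Point.ord, S.pt_val]
  rfl

theorem period {X : Type*} (f : Equiv.Perm X) (l : X → ℤ) (h0 : ∀ v, 0 ≤ l v)
    (hfin : (Function.support l).Finite) (hf : ∀ v, l (f v) = l v) (k : ℕ)
    (hk : ∑ᶠ v, l v = k) (v : X) (hv : l v ≠ 0) : (f ^ k.factorial) v = v := by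
  classical
  have h1 : ∀ i : ℕ, l ((f ^ i) v) = l v := by
    intro i
    induction i with
    | zero => simp
    | succ i ih => rw [pow_succ', Equiv.Perm.mul_apply, hf, ih]
  have h2 : (hfin.toFinset.card : ℤ) ≤ k := by
    rw [← hk, finsum_eq_sum l hfin]
    have h3 := Finset.card_nsmul_le_sum hfin.toFinset l 1 (fun x hx => by
      rw [Set.Finite.mem_toFinset, Function.mem_support] at hx
      have := h0 x
      omega)
    simpa using h3
  obtain ⟨i, hi, j, hj, hij, h⟩ := Finset.exists_ne_map_eq_of_card_lt_of_maps_to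
    (s := Finset.range (k + 1)) (t := hfin.toFinset) (f := fun i => (f ^ i) v)
    (by rw [Finset.card_range]; omega) (by
      intro i _
      simp only [Set.Finite.coe_toFinset, Function.mem_support]
      rw [h1]
      exact hv)
  wlog hlt : i < j generalizing i j
  · exact this j hj i hi hij.symm h.symm (by omega)
  have h4 : (f ^ (j - i)) v = v := by
    have h5 : (f ^ i) ((f ^ (j - i)) v) = (f ^ i) v := by
      rw [← Equiv.Perm.mul_apply, ← pow_add, show i + (j - i) = j by omega]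
      exact h.symm
    exact (f ^ i).injective h5
  rw [Finset.mem_range] at hi hj
  obtain ⟨b, hb⟩ := Nat.dvd_factorial (show 0 < j - i by omega) (show j - i ≤ k by omega)
  rw [hb, pow_mul]
  clear hb
  generalize f ^ (j - i) = g at h4
  induction b with
  | zero => simp
  | succ b ih => rw [pow_succ', Equiv.Perm.mul_apply, ih, h4]

theorem stable_pow {S : FD 𝕜 K} {F : Fam 𝕜 K n} (hF : Stable S.ψ F) (m : ℕ) (v : Point 𝕜 K)
    (x : Fin n → K) : x ∈ F v ↔ (fun i => (S.ψ ^ m) (x i)) ∈ F ((S.pt ^ m) v) := by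
  rw [S.stable_iff] at hF
  induction m with
  | zero => simp
  | succ m ih =>
    rw [ih, hF, pow_succ' S.pt, pow_succ' S.ψ]
    rfl

theorem finite_setA_triv (hK : IsCurve 𝕜 K) (S : FD 𝕜 K)
    (hpts : ∀ m : ℕ, 0 < m → {v : Point 𝕜 K | (S.pt ^ m) v = v}.Finite) (k : ℕ) :
    (setA S (trivialBundle 𝕜 K 2) k).Finite := by
  set N := k.factorial with hN
  have hN0 : 0 < N := Nat.factorial_pos k
  have hT := (hpts N hN0).to_subtype
  let T := {v : Point 𝕜 K | (S.pt ^ N) v = v}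
  have hbasic : ∀ F ∈ setA S (trivialBundle 𝕜 K 2) k, ∀ v : Point 𝕜 K,
      ((S.pt ^ N) v ≠ v → F v = (trivialBundle 𝕜 K 2).stalk v) ∧
      ((S.pt ^ N) v = v → F v ∈ {L : Set (Fin 2 → K) | ∃ M : Submodule 𝕜 (Fin 2 → K),
        (M : Set (Fin 2 → K)) = L ∧ ball v k ≤ M ∧ M ≤ ball v 0 ∧
          ∀ x ∈ M, (S.pow N hN0).vec x ∈ M}) := by
    rintro F ⟨h1, h2, E, h3, rfl⟩ v
    have hsum := sum_ord_det h3
    have hnn : ∀ v : Point 𝕜 K, 0 ≤ v.ord (E.frame v).1.det := fun v => ord_det_nonneg (h2 v)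
    constructor
    · intro hv
      by_contra hne
      apply hv
      exact period S.pt (fun v : Point 𝕜 K => v.ord (E.frame v).1.det) hnn E.finite_det
        (ord_pt S h1) k hsum v (fun h0 => hne (stalk_eq_of_ord (h2 v) h0))
    · intro hv
      have hle : v.ord (E.frame v).1.det ≤ k := by
        rw [← hsum]
        exact single_le_finsum v E.finite_det hnn
      refine ⟨{ carrier := E.stalk v
                add_mem' := ?_
                zero_mem' := ?_
                smul_mem' := ?_ }, rfl, ?_, ?_, ?_⟩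
      · intro a b ha hb i
        rw [Matrix.mulVec_add]
        exact Valuation.map_add_le _ (ha i) (hb i)
      · intro i
        rw [Matrix.mulVec_zero]
        simp
      · intro c s hs i
        have h : c • s = (algebraMap 𝕜 K c) • s := by
          ext i
          simp [Algebra.smul_def]
        rw [h, Matrix.mulVec_smul, Pi.smul_apply, smul_eq_mul, map_mul]
        exact mul_le_one' (v.const_le c) (hs i)
      · intro x hx
        change x ∈ E.stalk v
        rw [mem_stalk_iff]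
        intro i
        refine (inv_le (regM_sub (h2 v)) ((mem_ball v k x).1 hx) i).trans ?_
        rw [← exp_add, ← exp_zero, exp_le_exp]
        omega
      · intro x hx i
        have := (mem_triv v x).1 (h2 v hx) i
        simpa using this
      · intro x hx
        have h4 := (stable_pow h1 N v x).1 hx
        rw [hv] at h4
        exact h4
  refine Set.Finite.of_injOn (f := fun (F : Fam 𝕜 K 2) (v : T) => F v.1)
    (t := Set.pi Set.univ fun v : T => {L : Set (Fin 2 → K) | ∃ M : Submodule 𝕜 (Fin 2 → K),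
        (M : Set (Fin 2 → K)) = L ∧ ball v.1 k ≤ M ∧ M ≤ ball v.1 0 ∧
          ∀ x ∈ M, (S.pow N hN0).vec x ∈ M}) ?_ ?_ ?_
  · intro F hF v _
    exact (hbasic F hF v.1).2 v.2
  · intro F hF F' hF' hFF
    funext v
    by_cases hv : (S.pt ^ N) v = v
    · exact congrFun hFF ⟨v, hv⟩
    · rw [(hbasic F hF v).1 hv, (hbasic F' hF' v).1 hv]
  · apply Set.Finite.pi
    intro v
    refine local_fin hK (S.pow N hN0) v.1 ?_ k
    rw [S.pow_pt]
    exact v.2

theorem nval_mono {E F : Bundle 𝕜 K n} {v : Point 𝕜 K} (h : E.stalk v ⊆ F.stalk v)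
    (s : Fin n → K) : nval F v s ≤ nval E v s := by
  rcases eq_or_ne s 0 with rfl | hs
  · rw [nval_zero, nval_zero]
  obtain ⟨a, ha⟩ := v.surj (nval E v s)
  have ha0 : a ≠ 0 := by
    rintro rfl
    rw [map_zero] at ha
    exact nval_ne_zero E v hs ha.symm
  rw [← ha, nval_le_val_iff F v s ha0]
  exact h ((nval_le_val_iff E v s ha0).1 ha.ge)

theorem e1_ne : (Pi.single 0 1 : Fin 2 → K) ≠ 0 := by
  intro h
  have := congrFun h 0
  simp at this

theorem nval_triv_e1 (v : Point 𝕜 K) :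
    nval (trivialBundle 𝕜 K 2) v (Pi.single 0 1 : Fin 2 → K) = 1 := by
  apply le_antisymm
  · rw [← mem_stalk_iff_nval, mem_triv]
    intro i
    fin_cases i <;> simp
  · have h1 := (nval_le_iff (trivialBundle 𝕜 K 2) v (Pi.single 0 1 : Fin 2 → K) _).1 le_rfl 0
    have h2 : ((trivialBundle 𝕜 K 2).frame v)⁻¹.1 *ᵥ (Pi.single 0 1 : Fin 2 → K) =
        Pi.single 0 1 := by
      change ((1 : GL (Fin 2) K)⁻¹.1 *ᵥ _) = _
      rw [inv_one, Units.val_one, Matrix.one_mulVec]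
    rw [h2, Pi.single_eq_same, map_one] at h1
    exact h1

theorem setB_range (hK : IsCurve 𝕜 K) (S : FD 𝕜 K) (k : ℕ) (j : ℤ) (F : Fam 𝕜 K 2)
    (hF : F ∈ setB S (trivialBundle 𝕜 K 2) k (Pi.single 0 1) j) : 0 ≤ j ∧ j ≤ k := by
  obtain ⟨-, h2, E, h3, rfl, h4⟩ := hF
  have h0 : vdeg (trivialBundle 𝕜 K 2) (Pi.single 0 1 : Fin 2 → K) = 0 := by
    have h1 : ∀ v : Point 𝕜 K,
        vord (trivialBundle 𝕜 K 2) v (Pi.single 0 1 : Fin 2 → K) = 0 := by
      intro v
      rw [vord, nval_triv_e1, log_one, neg_zero]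
    rw [vdeg, finsum_congr h1, finsum_zero]
  rw [h0] at h4
  have hsum := sum_ord_det h3
  have h5 : ∀ v : Point 𝕜 K, vord E v (Pi.single 0 1 : Fin 2 → K) ≤ 0 := by
    intro v
    have h6 := nval_mono (h2 v) (Pi.single 0 1 : Fin 2 → K)
    rw [nval_triv_e1, vord_eq E v e1_ne, ← exp_zero, exp_le_exp] at h6
    omega
  have h7 : ∀ v : Point 𝕜 K, 0 ≤ vord E v (Pi.single 0 1 : Fin 2 → K) +
      v.ord (E.frame v).1.det := by
    intro v
    have h8 : nval E v (Pi.single 0 1 : Fin 2 → K) ≤ exp (v.ord (E.frame v).1.det) := by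
      rw [nval_le_iff]
      intro i
      have h9 := inv_le (regM_sub (h2 v)) (x := (Pi.single 0 1 : Fin 2 → K)) (c := 1) (by
        intro i
        fin_cases i <;> simp) i
      rwa [mul_one] at h9
    rw [vord_eq E v e1_ne, exp_le_exp] at h8
    omega
  have h10 : vdeg E (Pi.single 0 1 : Fin 2 → K) ≤ 0 := by
    have h11 : 0 ≤ ∑ᶠ v : Point 𝕜 K, -vord E v (Pi.single 0 1 : Fin 2 → K) :=
      finsum_nonneg fun v => by have := h5 v; omega
    rw [finsum_neg_distrib] at h11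
    rw [vdeg]
    omega
  have h12 : 0 ≤ vdeg E (Pi.single 0 1 : Fin 2 → K) + k := by
    rw [← hsum, vdeg, ← finsum_add_distrib (vord_finite hK E e1_ne) E.finite_det]
    exact finsum_nonneg h7
  omega

theorem tr_of_frame (S : FD 𝕜 K) (G : Bundle 𝕜 K n) (γ : Point 𝕜 K → GL (Fin n) K)
    (h1 : ∀ v x, x ∈ G.stalk v ↔ ∀ i, v.val (((γ v)⁻¹.1 *ᵥ x) i) ≤ 1)
    (h2 : ∀ v i j, (γ (S.pt v)).1 i j = S.ψ ((γ v).1 i j)) : Tr S G (trivialBundle 𝕜 K n) γ where
  st v x := by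
    rw [mem_triv, h1, gl_inv_mulVec]
    rfl
  eq v x := by
    ext i
    rw [FD.vec_apply, Matrix.mulVec, Matrix.mulVec, dotProduct, dotProduct, map_sum]
    refine Finset.sum_congr rfl fun j _ => ?_
    rw [map_mul, h2]
    rfl

end J382

theorem hecke {𝕜 K : Type} [Field 𝕜] [IsAlgClosed 𝕜] [Field K] [Algebra 𝕜 K]
    (hK : IsCurve 𝕜 K) (S : FD 𝕜 K)
    (hpts : ∀ m : ℕ, 0 < m → {v : Point 𝕜 K | (S.pt ^ m) v = v}.Finite)
    (hfr : ∀ (G : Bundle 𝕜 K 2), Stable S.ψ G.stalk → ∀ s : Fin 2 → K, s ≠ 0 → S.vec s = s →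
      ∃ γ : Point 𝕜 K → GL (Fin 2) K,
        (∀ v x, x ∈ G.stalk v ↔ ∀ i, v.val (((γ v)⁻¹.1 *ᵥ x) i) ≤ 1) ∧
        (∀ v i j, (γ (S.pt v)).1 i j = S.ψ ((γ v).1 i j)) ∧
        ∀ v, ∃ a : K, a ≠ 0 ∧ (fun i => (γ v).1 i 0) = a • s) (k : ℕ) :
    ∃ H : ℤ → ℕ, (∀ j, j < 0 ∨ (k : ℤ) < j → H j = 0) ∧
      ∀ G : Bundle 𝕜 K 2, Stable S.ψ G.stalk →
        {F : Fam 𝕜 K 2 | Stable S.ψ F ∧ (∀ v, F v ⊆ G.stalk v) ∧
          ∃ E : Bundle 𝕜 K 2, E.degree = G.degree - k ∧ F = E.stalk}.Finite ∧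
        ∀ s : Fin 2 → K, s ≠ 0 → S.vec s = s → ∀ j : ℤ,
          {F : Fam 𝕜 K 2 | Stable S.ψ F ∧ (∀ v, F v ⊆ G.stalk v) ∧
            ∃ E : Bundle 𝕜 K 2, E.degree = G.degree - k ∧ F = E.stalk ∧
              vdeg E s = vdeg G s - j}.ncard = H j := by
  refine ⟨fun j => (J382.setB S (trivialBundle 𝕜 K 2) k (Pi.single 0 1) j).ncard, ?_, ?_⟩
  · intro j hj
    have : J382.setB S (trivialBundle 𝕜 K 2) k (Pi.single 0 1) j = ∅ := by
      rw [Set.eq_empty_iff_forall_notMem]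
      intro F hF
      have := J382.setB_range hK S k j F hF
      omega
    simp only [this, Set.ncard_empty]
  · intro G hG
    constructor
    · obtain ⟨γ, h1, h2, -⟩ := hfr G hG (Pi.single 0 1) J382.e1_ne (by
        ext i
        rw [FD.vec_apply]
        fin_cases i <;> simp)
      exact (J382.tr_of_frame S G γ h1 h2).finiteA (J382.finite_setA_triv hK S hpts k)
    · intro s hs hψ j
      obtain ⟨γ, h1, h2, h3⟩ := hfr G hG s hs hψ
      exact (J382.tr_of_frame S G γ h1 h2).ncardB hK hs J382.e1_ne (fun v => by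
        obtain ⟨a, ha, h4⟩ := h3 v
        refine ⟨a, ha, ?_⟩
        rw [Matrix.mulVec_single_one, ← h4]
        rfl) j

end Pool.Agent.TH185
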